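import Pool.Agent.Q201.LV.Lower

/-!
# MP_7e58b6_lc: the gap between Las Vegas automata and Las Vegas protocols is quadratic

The definitions (`LasVegas`, `LVFA`, `Protocol`, `lvs`, `lvmc`, `G`) are in
`Pool.Agent.Q201.LV.Defs`.
-/

namespace Pool.Agent.Results.MP_7e58b6_lc.QuadraticGap

open Pool.Agent.Q201.LV

/-- A regular language with a protocol of at most `m` messages all of whose Las Vegas automata have
at least `m ^ 2 / 16` states. -/
theorem exists_language (α : Type) [Nontrivial α] (m : ℕ) (hm : 4 ≤ m) :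
    ∃ L : Language α, L.IsRegular ∧ lvmc L ≤ m ∧ m ^ 2 ≤ 16 * lvs L := by
  classical
  obtain ⟨s0, s1, hs⟩ := exists_pair_ne α
  -- choose `k` with `2 ^ (k + 1) ≤ m < 2 ^ (k + 2)`
  obtain ⟨k, hk1, hk2, hk3⟩ : ∃ k, 1 ≤ k ∧ 2 * 2 ^ k ≤ m ∧ m < 4 * 2 ^ k := by
    refine ⟨Nat.log 2 m - 1, ?_, ?_, ?_⟩
    · have : 2 ≤ Nat.log 2 m := by
        have : Nat.log 2 4 ≤ Nat.log 2 m := Nat.log_mono_right hm
        have h4 : Nat.log 2 4 = 2 := by
          rw [show (4 : ℕ) = 2 ^ 2 by norm_num, Nat.log_pow (by norm_num)]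
        omega
      omega
    · have h2 : 2 ≤ Nat.log 2 m := by
        have : Nat.log 2 4 ≤ Nat.log 2 m := Nat.log_mono_right hm
        have h4 : Nat.log 2 4 = 2 := by
          rw [show (4 : ℕ) = 2 ^ 2 by norm_num, Nat.log_pow (by norm_num)]
        omega
      have h1 : 2 ^ Nat.log 2 m ≤ m := Nat.pow_log_le_self 2 (by omega)
      calc 2 * 2 ^ (Nat.log 2 m - 1) = 2 ^ (Nat.log 2 m - 1 + 1) := by rw [pow_succ]; ring
        _ = 2 ^ Nat.log 2 m := by congr 1; omega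
        _ ≤ m := h1
    · have h2 : 2 ≤ Nat.log 2 m := by
        have : Nat.log 2 4 ≤ Nat.log 2 m := Nat.log_mono_right hm
        have h4 : Nat.log 2 4 = 2 := by
          rw [show (4 : ℕ) = 2 ^ 2 by norm_num, Nat.log_pow (by norm_num)]
        omega
      have h1 : m < 2 ^ (Nat.log 2 m + 1) := Nat.lt_pow_succ_log_self (by norm_num) m
      calc m < 2 ^ (Nat.log 2 m + 1) := h1
        _ = 2 ^ (Nat.log 2 m - 1 + 2) := by congr 1; omega
        _ = 4 * 2 ^ (Nat.log 2 m - 1) := by rw [pow_add]; ring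
  have hn : (2 * k - 2) + 2 = 2 * k := by omega
  refine ⟨langH (2 * k - 2) s0 s1, langH_isRegular _ _ _, (lvmc_langH_le hn s0 s1).trans hk2, ?_⟩
  have hlow : 2 ^ (2 * k) ≤ lvs (langH (2 * k - 2) s0 s1) := by
    obtain ⟨A, hA⟩ := Nat.sInf_mem (exists_lvfa_of_isRegular (langH_isRegular (2 * k - 2) s0 s1))
    have := card_states_ge A hn hs hA
    rwa [Fintype.card_fin] at this
  have h1 : m ^ 2 ≤ (4 * 2 ^ k) ^ 2 := Nat.pow_le_pow_left hk3.le 2
  have h2 : (4 * 2 ^ k) ^ 2 = 16 * 2 ^ (2 * k) := by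
    rw [mul_pow, ← pow_mul, mul_comm k 2]
    norm_num
  rw [h2] at h1
  exact h1.trans (Nat.mul_le_mul_left 16 hlow)

/-- For every alphabet `α` with at least two letters, the maximum `G(m)` of `lvs L` over the
regular languages `L` over `α` with `lvmc L ≤ m` exists and satisfies `m²/16 ≤ G(m) ≤ m²` for
all `m ≥ 4`; so `G(m) = Θ(m²)`. -/
theorem result (α : Type) [Finite α] [Nontrivial α] (m : ℕ) (hm : 4 ≤ m) :
    IsGreatest {n : ℕ | ∃ L : Language α, L.IsRegular ∧ lvmc L ≤ m ∧ lvs L = n} (G α m) ∧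
    m ^ 2 ≤ 16 * G α m ∧ G α m ≤ m ^ 2 := by
  obtain ⟨L, hL, hLm, hlow⟩ := exists_language α m hm
  have hbdd := G_bddAbove α m
  have hmem : lvs L ∈ {n : ℕ | ∃ L : Language α, L.IsRegular ∧ lvmc L ≤ m ∧ lvs L = n} :=
    ⟨L, hL, hLm, rfl⟩
  refine ⟨⟨Nat.sSup_mem ⟨_, hmem⟩ hbdd, fun n hn => le_csSup hbdd hn⟩, ?_, G_le α m⟩
  exact hlow.trans (Nat.mul_le_mul_left 16 (le_csSup hbdd hmem))

end Pool.Agent.Results.MP_7e58b6_lc.QuadraticGap
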